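import Pool.Agent.H123Z.GSC.Defs

set_option autoImplicit false
set_option linter.unusedSectionVars false

/-! Realisation of a companion matrix as a primitive matrix over the group ring. -/

namespace Pool.Agent.H123Z.GSC

namespace Rlz

variable {G : Type} [Group G] [Fintype G]

/-- nonnegative elements -/
def nn (x : MonoidAlgebra ℤ G) : Prop := ∀ g, 0 ≤ x.coeff g

/-- elements with a positive coefficient -/
def pp (x : MonoidAlgebra ℤ G) : Prop := ∃ g, 0 < x.coeff g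

/-- elements with all coefficients positive -/
def fl (x : MonoidAlgebra ℤ G) : Prop := ∀ g, 0 < x.coeff g

omit [Fintype G] in
theorem nn_zero : nn (0 : MonoidAlgebra ℤ G) := fun g => by simp

omit [Fintype G] in
theorem nn_one : nn (1 : MonoidAlgebra ℤ G) := fun g => by
  classical
  rw [MonoidAlgebra.one_def, MonoidAlgebra.coeff_single, Finsupp.single_apply]
  split_ifs <;> norm_num

omit [Fintype G] in
theorem pp_one : pp (1 : MonoidAlgebra ℤ G) := ⟨1, by simp [MonoidAlgebra.one_def]⟩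

omit [Fintype G] in
theorem fl.pp {x : MonoidAlgebra ℤ G} (h : fl x) : pp x := ⟨1, h 1⟩

omit [Fintype G] in
theorem nn.add {x y : MonoidAlgebra ℤ G} (hx : nn x) (hy : nn y) : nn (x + y) := fun g => by
  simpa using add_nonneg (hx g) (hy g)

omit [Fintype G] in
theorem le_add_left {x y : MonoidAlgebra ℤ G} (hx : nn x) (g : G) :
    y.coeff g ≤ (x + y).coeff g := by simpa using hx g

omit [Fintype G] in
theorem le_add_right {x y : MonoidAlgebra ℤ G} (hy : nn y) (g : G) :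
    x.coeff g ≤ (x + y).coeff g := by simpa using hy g

theorem nn.mul {x y : MonoidAlgebra ℤ G} (hx : nn x) (hy : nn y) : nn (x * y) := fun g => by
  rw [coeff_mul_sum]
  exact Finset.sum_nonneg fun h _ => mul_nonneg (hx _) (hy _)

theorem mul_pos' {x y : MonoidAlgebra ℤ G} (hx : nn x) (hy : nn y) {g h : G}
    (h1 : 0 < x.coeff h) (h2 : 0 < y.coeff (h⁻¹ * g)) : 0 < (x * y).coeff g := by
  rw [coeff_mul_sum]
  exact (mul_pos h1 h2).trans_le (Finset.single_le_sum
    (f := fun h => x.coeff h * y.coeff (h⁻¹ * g)) (fun h _ => mul_nonneg (hx _) (hy _))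
    (Finset.mem_univ h))

omit [Fintype G] in
theorem coeff_sum' {κ : Type} (s : Finset κ) (f : κ → MonoidAlgebra ℤ G) (g : G) :
    (∑ k ∈ s, f k).coeff g = ∑ k ∈ s, (f k).coeff g := by
  classical
  induction s using Finset.induction_on with
  | empty => simp
  | insert a s ha ih => rw [Finset.sum_insert ha, Finset.sum_insert ha, ← ih]; simp

omit [Fintype G] in
theorem nn_sum {κ : Type} {s : Finset κ} {f : κ → MonoidAlgebra ℤ G} (h : ∀ k ∈ s, nn (f k)) :
    nn (∑ k ∈ s, f k) := fun g => by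
  rw [coeff_sum']; exact Finset.sum_nonneg fun k hk => h k hk g

omit [Fintype G] in
theorem le_sum {κ : Type} {s : Finset κ} {f : κ → MonoidAlgebra ℤ G} (h : ∀ k ∈ s, nn (f k))
    {a : κ} (ha : a ∈ s) (g : G) : (f a).coeff g ≤ (∑ k ∈ s, f k).coeff g := by
  rw [coeff_sum']
  exact Finset.single_le_sum (f := fun k => (f k).coeff g) (fun k hk => h k hk g) ha

variable {S : Type} [Fintype S] [DecidableEq S]

/-- nonnegative matrices -/
def NN (M : MZ S G) : Prop := ∀ i j, nn (M i j)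

omit [Fintype G] [Fintype S] [DecidableEq S] in
theorem NN_zero : NN (0 : MZ S G) := fun _ _ => nn_zero

omit [Fintype G] [Fintype S] in
theorem NN_one : NN (1 : MZ S G) := fun i j => by
  rw [Matrix.one_apply]; split_ifs; exacts [nn_one, nn_zero]

omit [DecidableEq S] in
theorem NN.mul {M N : MZ S G} (hM : NN M) (hN : NN N) : NN (M * N) := fun i j => by
  rw [Matrix.mul_apply]; exact nn_sum fun k _ => (hM i k).mul (hN k j)

theorem NN.pow {N : MZ S G} (hN : NN N) (k : ℕ) : NN (N ^ k) := by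
  induction k with
  | zero => rw [pow_zero]; exact NN_one
  | succ k ih => rw [pow_succ]; exact ih.mul hN

omit [DecidableEq S] in
theorem NN.pos {M N : MZ S G} (hM : NN M) (hN : NN N) {i k j : S} {g h : G}
    (h1 : 0 < (M i k).coeff h) (h2 : 0 < (N k j).coeff (h⁻¹ * g)) : 0 < ((M * N) i j).coeff g := by
  rw [Matrix.mul_apply]
  exact (mul_pos' (hM i k) (hN k j) h1 h2).trans_le
    (le_sum (f := fun k => M i k * N k j) (fun k _ => (hM i k).mul (hN k j)) (Finset.mem_univ k) g)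

omit [DecidableEq S] in
theorem NN.pp {M N : MZ S G} (hM : NN M) (hN : NN N) {i k j : S} (h1 : pp (M i k))
    (h2 : pp (N k j)) : pp ((M * N) i j) := by
  obtain ⟨h, h1⟩ := h1
  obtain ⟨g, h2⟩ := h2
  exact ⟨h * g, hM.pos hN h1 (by simpa using h2)⟩

omit [DecidableEq S] in
theorem NN.pf {M N : MZ S G} (hM : NN M) (hN : NN N) {i k j : S} (h1 : Rlz.pp (M i k))
    (h2 : fl (N k j)) : fl ((M * N) i j) := fun _ => by
  obtain ⟨h, h1⟩ := h1
  exact hM.pos hN h1 (h2 _)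

omit [DecidableEq S] in
theorem NN.fp {M N : MZ S G} (hM : NN M) (hN : NN N) {i k j : S} (h1 : fl (M i k))
    (h2 : Rlz.pp (N k j)) : fl ((M * N) i j) := fun g => by
  obtain ⟨h, h2⟩ := h2
  exact hM.pos hN (h1 (g * h⁻¹)) (by simpa using h2)

/-- reachability -/
def Re (N : MZ S G) (a b : S) : Prop := ∃ m, pp ((N ^ m) a b)

theorem Re.trans {N : MZ S G} (hN : NN N) {a b c : S} (h1 : Re N a b) (h2 : Re N b c) :
    Re N a c := by
  obtain ⟨m, h1⟩ := h1
  obtain ⟨n, h2⟩ := h2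
  exact ⟨m + n, by rw [pow_add]; exact (hN.pow m).pp (hN.pow n) h1 h2⟩

omit [Fintype G] in
theorem Re.step {N : MZ S G} {a b : S} (h : pp (N a b)) : Re N a b := ⟨1, by rwa [pow_one]⟩

theorem prim {N : MZ S G} (hN : NN N) (h : S) (K : ℕ) (hK : 1 ≤ K)
    (h1 : ∀ k, K ≤ k → k ≤ 2 * K → fl ((N ^ k) h h)) (h2 : ∀ a, Re N a h) (h3 : ∀ b, Re N h b) :
    ∃ p : ℕ, 0 < p ∧ ∀ a b, fl ((N ^ p) a b) := by
  have h4 : ∀ k, K ≤ k → fl ((N ^ k) h h) := fun k => by
    induction k using Nat.strong_induction_on with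
    | _ k ih =>
      intro hk
      by_cases h5 : k ≤ 2 * K
      · exact h1 k hk h5
      · rw [show k = K + (k - K) by omega, pow_add]
        exact (hN.pow _).pf (hN.pow _) (h1 K le_rfl (by omega)).pp (ih _ (by omega) (by omega))
  choose m hm using h2
  choose n hn using h3
  refine ⟨Finset.univ.sup m + Finset.univ.sup n + K, by omega, fun a b => ?_⟩
  have h5 : m a ≤ Finset.univ.sup m := Finset.le_sup (Finset.mem_univ a)
  have h6 : n b ≤ Finset.univ.sup n := Finset.le_sup (Finset.mem_univ b)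
  rw [show Finset.univ.sup m + Finset.univ.sup n + K =
    m a + ((Finset.univ.sup m - m a + (Finset.univ.sup n - n b) + K) + n b) by omega, pow_add,
    pow_add]
  exact (hN.pow _).pf ((hN.pow _).mul (hN.pow _)) (hm a)
    ((hN.pow _).fp (hN.pow _) (h4 _ (by omega)) (hn b))

omit [Fintype G] in
theorem subm_pow {T : Type} [Fintype T] [DecidableEq T] (N : MZ S G) (e : T ≃ S) (p : ℕ) :
    (N.submatrix e e) ^ p = (N ^ p).submatrix e e := by
  induction p with
  | zero => rw [pow_zero, pow_zero, Matrix.submatrix_one_equiv]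
  | succ p ih => rw [pow_succ, pow_succ, ih, Matrix.submatrix_mul_equiv]

theorem prim_comp {ι : Type} [Fintype ι] [DecidableEq ι] [Nonempty ι] (Z Y Q : Polynomial (MZ ι G))
    (K T d : ℕ) (hK : 1 ≤ K) (hT : 2 * K ≤ T) (hZ : ∀ k, NN (Z.coeff k)) (hY : ∀ k, NN (Y.coeff k))
    (hQ : ∀ k, NN (Q.coeff k)) (hZK : ∀ k, K ≤ k → k ≤ T → ∀ i j, fl (Z.coeff k i j))
    (hL : ∃ j, ∀ i, pp (Y.coeff (T + d) i j))
    (hc : ∀ j, ∃ k, 1 ≤ k ∧ k ≤ d ∧ ∀ i, pp (Y.coeff (T + k) i j)) :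
    NN (Matrix.compRingEquiv _ _ _ (comp2 (T + d) Z Y Q)) ∧ ∃ p : ℕ, 0 < p ∧
      ∀ a b, fl ((Matrix.compRingEquiv _ _ _ (comp2 (T + d) Z Y Q) ^ p) a b) := by
  set N : MZ ((Bool × Fin (T + d)) × ι) G := Matrix.compRingEquiv _ _ _ (comp2 (T + d) Z Y Q)
  have hNe : ∀ a b, N a b = (if a.1.1 = b.1.1 ∧ (b.1.2 : ℕ) = (a.1.2 : ℕ) + 1 then (1 : MZ ι G)
      else 0) a.2 b.2 + (if (b.1.2 : ℕ) = 0 then (if b.1.1 = true then
        (if a.1.1 = true then Q + Y else Y) else Z).coeff ((a.1.2 : ℕ) + 1) else 0) a.2 b.2 :=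
    fun _ _ => rfl
  have hQY : ∀ k, NN ((Q + Y).coeff k) := fun k i j => by
    rw [Polynomial.coeff_add]; exact (hQ k i j).add (hY k i j)
  have n1 : ∀ (c : Prop) [Decidable c], NN (if c then (1 : MZ ι G) else 0) := fun c _ => by
    split_ifs; exacts [NN_one, NN_zero]
  have n2 : ∀ (c : Prop) [Decidable c] (v w : Bool) (k : ℕ), NN (if c then (if w = true then
      (if v = true then Q + Y else Y) else Z).coeff k else 0) := fun c _ v w k => by
    split_ifs; exacts [hQY k, hY k, hZ k, NN_zero]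
  have hN : NN N := fun a b => by rw [hNe]; exact (n1 _ _ _).add (n2 _ _ _ _ _ _)
  have h0 : 0 < T + d := by omega
  have climb : ∀ (v : Bool) (i : ι) (j : ℕ) (hj : j < T + d) (m : ℕ) (hm : j + m < T + d),
      pp ((N ^ m) ((v, ⟨j, hj⟩), i) ((v, ⟨j + m, hm⟩), i)) := by
    intro v i j hj m
    induction m with
    | zero => intro hm; rw [pow_zero, Matrix.one_apply, if_pos (by rfl)]; exact pp_one
    | succ m ih =>
      intro hm
      rw [pow_succ]
      refine (hN.pow m).pp hN (ih (by omega)) ?_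
      rw [hNe, if_pos ⟨rfl, rfl⟩, if_neg (by simp)]
      simpa using pp_one (G := G)
  have climb' : ∀ (v : Bool) (i : ι) (j j' : Fin (T + d)), j ≤ j' → Re N ((v, j), i) ((v, j'), i) := by
    rintro v i ⟨j, hj⟩ ⟨j', hj'⟩ h
    obtain ⟨m, rfl⟩ := Nat.exists_eq_add_of_le (show j ≤ j' from h)
    exact ⟨m, climb v i j hj m hj'⟩
  have toF : ∀ (v : Bool) (i i' : ι) (k : ℕ) (hk : k < T + d), K ≤ k + 1 → k + 1 ≤ T →
      fl (N ((v, ⟨k, hk⟩), i) ((false, ⟨0, h0⟩), i')) := fun v i i' k hk h1 h2 g => by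
    rw [hNe]
    refine lt_of_lt_of_le ?_ (le_add_left (n1 _ _ _) g)
    simpa using hZK (k + 1) h1 h2 i i' g
  have toT : ∀ (v : Bool) (i i' : ι) (k : ℕ) (hk : k < T + d), pp (Y.coeff (k + 1) i i') →
      pp (N ((v, ⟨k, hk⟩), i) ((true, ⟨0, h0⟩), i')) := by
    rintro v i i' k hk ⟨g, hg⟩
    refine ⟨g, ?_⟩
    rw [hNe]
    refine lt_of_lt_of_le ?_ (le_add_left (n1 _ _ _) g)
    cases v
    · simpa using hg
    · have := hg.trans_le (le_add_left (hQ (k + 1) i i') g)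
      simpa using this
  have toF' : ∀ (v : Bool) (i i' : ι), Re N ((v, ⟨0, h0⟩), i) ((false, ⟨0, h0⟩), i') :=
    fun v i i' => (climb' v i _ ⟨K - 1, by omega⟩ (Nat.zero_le _)).trans hN
      (Re.step (toF v i i' _ _ (by omega) (by omega)).pp)
  obtain ⟨o⟩ := ‹Nonempty ι›
  refine ⟨hN, prim hN ((false, ⟨0, h0⟩), o) K hK (fun k h1 h2 => ?_) ?_ ?_⟩
  · obtain ⟨k, rfl⟩ := Nat.exists_eq_add_of_le' (hK.trans h1)
    rw [pow_succ]
    exact (hN.pow k).pf hN (climb false o 0 h0 k (by omega))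
      (toF false o o _ _ (by omega) (by omega))
  · rintro ⟨⟨v, j⟩, i⟩
    obtain ⟨i', h1⟩ := hL
    refine ((climb' v i j ⟨T + d - 1, by omega⟩ (Nat.le_sub_one_of_lt j.2)).trans hN
      (Re.step (toT v i i' _ _ ?_))).trans hN (toF' true i' o)
    rw [Nat.sub_add_cancel h0]; exact h1 i
  · rintro ⟨⟨v, j⟩, i⟩
    refine Re.trans hN ?_ (climb' v i ⟨0, h0⟩ j (Nat.zero_le _))
    cases v
    · exact toF' false o i
    · obtain ⟨k, h1, h2, h3⟩ := hc i
      refine (climb' false o _ ⟨T + k - 1, by omega⟩ (Nat.zero_le _)).trans hN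
        (Re.step (toT false o i _ _ ?_))
      rw [Nat.sub_add_cancel (by omega)]; exact h3 o

end Rlz

open Rlz in
theorem realize (hSE : SEComp) {ι G : Type} [Fintype ι] [DecidableEq ι] [Nonempty ι] [Group G] [Fintype G]
    (B : MZ ι G) (E E' H H' Q : Polynomial (MZ ι G)) (F : PowerSeries (MZ ι G)) (K : ℕ)
    (hE : E * E' = 1) (hE' : E' * E = 1) (hH : H * H' = 1) (hH' : H' * H = 1)
    (hW : ((E * (1 - Polynomial.X * Polynomial.C B) * H : Polynomial (MZ ι G)) : PowerSeries (MZ ι G)) =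
      (1 - F) * (1 - (Q : PowerSeries (MZ ι G))))
    (hF0 : PowerSeries.coeff 0 F = 0)
    (hF : ∀ k i j g, 0 ≤ (PowerSeries.coeff k F i j).coeff g)
    (hFK : ∀ k, K ≤ k → ∀ i j g, 0 < (PowerSeries.coeff k F i j).coeff g)
    (hQ0 : Q.coeff 0 = 0) (hQ : ∀ k i j g, 0 ≤ (Q.coeff k i j).coeff g)
    (hQc : ∀ j, ∃ k i g, 0 < (Q.coeff k i j).coeff g) :
    ∃ (n : ℕ) (C : Matrix (Fin n) (Fin n) (MonoidAlgebra ℤ G)), 0 < n ∧
      (∀ i j g, 0 ≤ (C i j).coeff g) ∧ (∃ p : ℕ, 0 < p ∧ ∀ i j g, 0 < ((C ^ p) i j).coeff g) ∧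
      ∃ (l : ℕ) (R : Matrix ι (Fin n) (MonoidAlgebra ℤ G)) (S : Matrix (Fin n) ι (MonoidAlgebra ℤ G)),
        0 < l ∧ B * R = R * C ∧ S * B = C * S ∧ R * S = B ^ l ∧ S * R = C ^ l := by
  obtain ⟨o⟩ := id ‹Nonempty ι›
  have hK : 1 ≤ K := by
    by_contra h
    have := hFK 0 (by omega) o o 1
    rw [hF0] at this
    simp at this
  have hQ1 : ∀ k i j g, 0 < (Q.coeff k i j).coeff g → 1 ≤ k ∧ k ≤ Q.natDegree := by
    intro k i j g h
    have h1 : Q.coeff k ≠ 0 := fun h0 => by rw [h0] at h; simp at h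
    exact ⟨Nat.pos_of_ne_zero fun h0 => h1 (h0 ▸ hQ0), Polynomial.le_natDegree_of_ne_zero h1⟩
  obtain ⟨W, hWd⟩ : ∃ W, W = E * (1 - Polynomial.X * Polynomial.C B) * H := ⟨_, rfl⟩
  rw [← hWd] at hW
  obtain ⟨T, hT⟩ : ∃ T, T = 2 * K + W.natDegree + Q.natDegree := ⟨_, rfl⟩
  obtain ⟨Z, hZd⟩ : ∃ Z, Z = PowerSeries.trunc (T + 1) F := ⟨_, rfl⟩
  have hZ : ∀ k, Z.coeff k = if k < T + 1 then PowerSeries.coeff k F else 0 := fun k => by
    rw [hZd, PowerSeries.coeff_trunc]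
  have hZn : ∀ k, NN (Z.coeff k) := fun k => by
    rw [hZ]; split_ifs; exacts [hF k, NN_zero]
  have hZK : ∀ k, K ≤ k → k ≤ T → ∀ i j, fl (Z.coeff k i j) := fun k h1 h2 i j => by
    rw [hZ, if_pos (by omega)]; exact hFK k h1 i j
  obtain ⟨Y, hYd⟩ : ∃ Y, Y = (1 - Z) * (1 - Q) - W := ⟨_, rfl⟩
  have hY1 : ∀ k, k ≤ T → Y.coeff k = 0 := fun k hk => by
    have h1 : (Y : PowerSeries (MZ ι G)) = (F - Z) * (1 - Q) := by
      have := congrArg Polynomial.coeToPowerSeries.ringHom hYd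
      simp only [map_sub, map_mul, map_one, Polynomial.coeToPowerSeries.ringHom_apply] at this
      rw [this, hW, ← sub_mul]; congr 1; abel
    rw [← Polynomial.coeff_coe, h1, PowerSeries.coeff_mul]
    refine Finset.sum_eq_zero fun p hp => ?_
    have := Finset.HasAntidiagonal.mem_antidiagonal.1 hp
    rw [map_sub, Polynomial.coeff_coe, hZ, if_pos (by omega), sub_self, zero_mul]
  have hY2 : ∀ k, T < k → Y.coeff k = ∑ p ∈ Finset.HasAntidiagonal.antidiagonal k, Z.coeff p.1 * Q.coeff p.2 :=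
    fun k hk => by
    have h0 : (1 - Z) * (1 - Q) = 1 - Z - Q + Z * Q := by
      rw [mul_sub, mul_one, sub_mul, one_mul]; abel
    rw [hYd, h0]
    simp only [Polynomial.coeff_sub, Polynomial.coeff_add]
    rw [Polynomial.coeff_one, if_neg (by omega), hZ, if_neg (by omega),
      Polynomial.coeff_eq_zero_of_natDegree_lt (p := Q) (by omega),
      Polynomial.coeff_eq_zero_of_natDegree_lt (p := W) (by omega), Polynomial.coeff_mul]
    simp
  have hYn : ∀ k, NN (Y.coeff k) := fun k => by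
    by_cases hk : k ≤ T
    · rw [hY1 k hk]; exact NN_zero
    · intro i j
      rw [hY2 k (by omega), Matrix.sum_apply]
      exact nn_sum fun p _ => (hZn _).mul (hQ _) i j
  have hYp : ∀ k i j g, 0 < (Q.coeff k i j).coeff g → ∀ i', pp (Y.coeff (T + k) i' j) := by
    intro k i j g h i'
    have h1 := hQ1 k i j g h
    obtain ⟨g', hg'⟩ := (hZn T).pp (hQ k) (hZK T (by omega) le_rfl i' i).pp ⟨g, h⟩
    refine ⟨g', hg'.trans_le ?_⟩
    rw [hY2 _ (by omega), Matrix.sum_apply]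
    exact le_sum (f := fun p : ℕ × ℕ => (Z.coeff p.1 * Q.coeff p.2) i' j) (a := (T, k))
      (fun p _ => (hZn _).mul (hQ _) i' j) (Finset.HasAntidiagonal.mem_antidiagonal.2 rfl) g'
  have hQne : Q.coeff Q.natDegree ≠ 0 := by
    obtain ⟨k, i, g, h⟩ := hQc o
    exact Polynomial.leadingCoeff_ne_zero.2 fun h0 => by rw [h0] at h; simp at h
  obtain ⟨hN, p, hp, hNp⟩ := prim_comp Z Y Q K T Q.natDegree hK (by omega) hZn hYn hQ hZK
    (by
      by_contra hc
      refine hQne (Matrix.ext fun i j => MonoidAlgebra.ext (Finsupp.ext fun g => ?_))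
      exact ((hQ _ i j g).eq_or_lt.resolve_right fun h => hc ⟨j, hYp _ i j g h⟩).symm)
    fun j => by
      obtain ⟨k, i, g, h⟩ := hQc j
      exact ⟨k, (hQ1 k i j g h).1, (hQ1 k i j g h).2, hYp k i j g h⟩
  obtain ⟨l, r, s, hl, e1, e2, e3, e4⟩ := hSE (MZ ι G) B E E' H H' Z Y Q (T + Q.natDegree)
    (by omega) hE hE' hH hH' (by rw [← hWd, hYd]; simp) (by rw [hZ, if_pos (by omega), hF0])
    (hY1 0 (Nat.zero_le _)) hQ0 fun k hk => ⟨by rw [hZ, if_neg (by omega)], by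
      rw [hY2 k (by omega)]
      refine Finset.sum_eq_zero fun p hp => ?_
      have := Finset.HasAntidiagonal.mem_antidiagonal.1 hp
      by_cases h : p.1 < T + 1
      · rw [Polynomial.coeff_eq_zero_of_natDegree_lt (p := Q) (by omega), mul_zero]
      · rw [hZ, if_neg h, zero_mul], Polynomial.coeff_eq_zero_of_natDegree_lt (by omega)⟩
  rw [← map_pow] at hNp
  set N : MZ ((Bool × Fin (T + Q.natDegree)) × ι) G :=
    Matrix.compRingEquiv _ _ _ (comp2 (T + Q.natDegree) Z Y Q) with hNd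
  have hNe : ∀ a b, N a b = comp2 (T + Q.natDegree) Z Y Q a.1 b.1 a.2 b.2 := fun _ _ => rfl
  let R0 : Matrix ι ((Bool × Fin (T + Q.natDegree)) × ι) (MonoidAlgebra ℤ G) :=
    fun i x => r x.1 i x.2
  let S0 : Matrix ((Bool × Fin (T + Q.natDegree)) × ι) ι (MonoidAlgebra ℤ G) :=
    fun x i => s x.1 x.2 i
  have f1 : B * R0 = R0 * N := by
    ext1 i x
    have := congrFun (congrFun (e1 x.1) i) x.2
    rw [Matrix.sum_apply] at this
    rw [Matrix.mul_apply, Matrix.mul_apply, Fintype.sum_prod_type]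
    exact this
  have f2 : S0 * B = N * S0 := by
    ext1 x i
    have := congrFun (congrFun (e2 x.1) x.2) i
    rw [Matrix.sum_apply] at this
    rw [Matrix.mul_apply, Matrix.mul_apply, Fintype.sum_prod_type]
    exact this
  have f3 : R0 * S0 = B ^ l := by
    ext1 i j
    rw [← e3, Matrix.sum_apply, Matrix.mul_apply, Fintype.sum_prod_type]
    rfl
  have f4 : S0 * R0 = N ^ l := by
    ext1 x y
    rw [hNd, ← map_pow]
    exact congrFun (congrFun (e4 x.1 y.1) x.2) y.2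
  let e := (Fintype.equivFin ((Bool × Fin (T + Q.natDegree)) × ι)).symm
  refine ⟨_, N.submatrix e e, Fintype.card_pos_iff.2 ⟨((false, ⟨0, by omega⟩), o)⟩,
    fun i j => hN _ _, ⟨p, hp, fun i j => ?_⟩, l, R0.submatrix id e, S0.submatrix e id, hl,
    ?_, ?_, ?_, ?_⟩
  · rw [subm_pow, hNd, ← map_pow]; exact hNp _ _
  · rw [Matrix.submatrix_mul_equiv, ← f1]; rfl
  · rw [Matrix.submatrix_mul_equiv, ← f2]; rfl
  · rw [Matrix.submatrix_mul_equiv, f3]; rfl
  · rw [subm_pow, ← f4]; rfl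

end Pool.Agent.H123Z.GSC
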